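import Pool.Agent.H890.XY.Vil
import Pool.Agent.H890.XY.Z0m

set_option autoImplicit false

/-!
# The critical inverse temperature of the diluted Villain model is continuous in `p`

`betac0 kV p = inf {β ≥ 0 : 𝔼_p[⟨cos(θ_0 - θ_x)⟩_{β,ω}] decays polynomially} ∈ [0,∞]` is a
continuous function of `p ∈ (0,1]`, in particular of `p ∈ (1/2,1]` (Q1 of the problem).
The reason is a strict form of Ginibre's inequality for one edge: for `0 < β < β'` there is
`κ < 1` such that adding an edge of strength `β` raises a two-point function by at most `κ` times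
what adding an edge of strength `β'` does, uniformly in everything else; so
`𝔼_p[⟨cos(θ_0 - θ_x)⟩_{β}] ≤ 𝔼_{p'}[⟨cos(θ_0 - θ_x)⟩_{β'}]` whenever `κ p ≤ p'`.

The definitions (`TT`, `vR`, `vil`, `ccos`, `box`, `edges`, `ext`, `unif`, `wt`, `tpf`, `kV`,
`Jof`, `tpInf`, `avg`, `Poly`) are in `Pool/Agent/H890/XY/Stmts.lean`, `betac0` is in
`Pool/Agent/H890/XY/Gen.lean` and `bern` in `Pool/Agent/H890/Tilt/Key.lean`.
-/

namespace Pool.Agent.Results.MP_533d58_pr.VillainContinuity

open MeasureTheory Set Filter Topology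
open Pool.Agent.H890.XY

theorem result :
    -- the finite-volume two-point functions converge to `tpInf`
    (∀ (β : ℝ) (ω : Ed → Bool) (x : Vx),
      Tendsto (fun L : ℕ => tpf kV (Jof β ω) (box L) (edges L) x) atTop (𝓝 (tpInf kV β ω x))) ∧
    -- comparison of the averaged two-point functions at different `p`
    (∀ β β' : ℝ, 0 < β → β < β' → ∃ κ : ℝ, 0 ≤ κ ∧ κ < 1 ∧
      ∀ p p' : unitInterval, κ * p ≤ p' → ∀ x, avg kV p β x ≤ avg kV p' β' x) ∧
    -- continuity of the critical inverse temperature
    ContinuousOn (betac0 kV) {p : unitInterval | 0 < (p : ℝ)} := by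
  refine ⟨fun β ω x => Gen.tpf_tendsto goodV β ω x, fun β β' hβ hlt => Gen.transfer goodV hβ hlt, ?_⟩
  have h : betac0 kV = betac kV := by
    funext p; exact betac0_eq z0m (kV_nonpos (lt_irrefl 0)) p
  rw [h]
  exact Gen.cont_betac goodV

end Pool.Agent.Results.MP_533d58_pr.VillainContinuity
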