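import Pool.Agent.H890.XY.XYa
import Pool.Agent.H890.XY.FLd
import Pool.Agent.H890.XY.FLp
import Pool.Agent.H890.XY.Exp
import Pool.Agent.H890.XY.Gseq
import Pool.Agent.H890.XY.Z0m

set_option autoImplicit false

/-!
# The critical inverse temperature of the diluted XY model is continuous in `p`

`betac0 kX p = inf {β ≥ 0 : 𝔼_p[⟨cos(θ_0 - θ_x)⟩_{β,ω}] decays polynomially} ∈ [0,∞]` for the XY
model (edge weight `exp(β cos(θ_x - θ_y))` on open edges) is a continuous function of `p ∈ (0,1]`,
in particular of `p ∈ (1/2,1]` (Q2 of the problem).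
The reason is a strict form of Ginibre's inequality for one edge: for `0 < β < β'` there is
`κ < 1` such that adding an edge of strength `β` raises a two-point function by at most `κ` times
what adding an edge of strength `β'` does, uniformly in everything else; so
`𝔼_p[⟨cos(θ_0 - θ_x)⟩_{β}] ≤ 𝔼_{p'}[⟨cos(θ_0 - θ_x)⟩_{β'}]` whenever `κ p ≤ p'`.

The definitions (`TT`, `ccos`, `box`, `edges`, `ext`, `unif`, `wt`, `tpf`, `kX`, `Jof`, `tpInf`,
`avg`, `Poly`) are in `Pool/Agent/H890/XY/Stmts.lean`, `betac0` is in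
`Pool/Agent/H890/XY/Gen.lean` and `bern` in `Pool/Agent/H890/Tilt/Key.lean`.
-/

namespace Pool.Agent.Results.MP_533d58_pr.XYContinuity

open MeasureTheory Set Filter Topology
open Pool.Agent.H890.XY

theorem result :
    -- the finite-volume two-point functions converge to `tpInf`
    (∀ (β : ℝ) (ω : Ed → Bool) (x : Vx),
      Tendsto (fun L : ℕ => tpf kX (Jof β ω) (box L) (edges L) x) atTop (𝓝 (tpInf kX β ω x))) ∧
    -- comparison of the averaged two-point functions at different `p`
    (∀ β β' : ℝ, 0 < β → β < β' → ∃ κ : ℝ, 0 ≤ κ ∧ κ < 1 ∧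
      ∀ p p' : unitInterval, κ * p ≤ p' → ∀ x, avg kX p β x ≤ avg kX p' β' x) ∧
    -- continuity of the critical inverse temperature
    ContinuousOn (betac0 kX) {p : unitInterval | 0 < (p : ℝ)} := by
  have good : Gen.Good kX := goodX flmulm flserm texp fldoublem gseq
  refine ⟨fun β ω x => Gen.tpf_tendsto good β ω x, fun β β' hβ hlt => Gen.transfer good hβ hlt, ?_⟩
  have h : betac0 kX = betac kX := by
    funext p; exact betac0_eq z0m (kX_nonpos (lt_irrefl 0)) p
  rw [h]
  exact Gen.cont_betac good

end Pool.Agent.Results.MP_533d58_pr.XYContinuity
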